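import Pool.Agent.Q33.BSR.Groups

/-!
# The retreat depth of the solvable Baumslag–Solitar groups is unbounded

`BS m` is the presented group `⟨a, t ∣ t a t⁻¹ = a ^ m⟩`, `gens a t = {a, a⁻¹, t, t⁻¹}`, `len` the word
length, `comp S g d` the set of the elements that are joined to `g` by a path of the Cayley graph
outside the ball of radius `|g| - d - 1`, and `retreatDepth S g` the least `d` for which this set is
infinite (see `Pool.Agent.Q33.BSR.Words`).
-/

set_option autoImplicit false

namespace Pool.Agent.Results.MP_af8618_al.UnboundedRetreatDepth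

open Pool.Agent.Q33.BSR

/-- For every `m ≥ 2` the group `BS(1, m)` has unbounded retreat depth with respect to the
generators `a^±1`, `t^±1`. -/
theorem result (m : ℕ) (hm : 2 ≤ m) (D : ℕ) :
    ∃ g : BS m, D < retreatDepth (gens (BS.a m) (BS.t m)) g := by
  obtain ⟨c⟩ := BS.coord m hm
  exact c.unbounded (by exact_mod_cast hm) D

end Pool.Agent.Results.MP_af8618_al.UnboundedRetreatDepth
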